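import Pool.Agent.H30.AV.Targets3

/-!
# MP_70ba79_ag: module CUR of the board `avr_modules`
-/

set_option autoImplicit false

namespace Pool.Agent.H64.AV

open MvPolynomial SC Pool.Agent.H27.LV Pool.Agent.H30.AV

section

variable {k K : Type} [Field k] [Field K] [Algebra k K] (v : DV k K)

/-- half integral order at least `t / 2` -/
def R2 (t : ℤ) (x : K) : Prop := x = 0 ∨ t ≤ 2 * v.ord x

variable {v}

theorem R2.mono {s t : ℤ} {x : K} (h : R2 v s x) (hst : t ≤ s) : R2 v t x :=
  h.imp id fun h => hst.trans h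

theorem R2.of_ge {t : ℤ} {x : K} (h : ge v t x) : R2 v (2 * t) x :=
  h.imp id fun h => by linarith

theorem R2.mul {s t : ℤ} {x y : K} (hx : R2 v s x) (hy : R2 v t y) : R2 v (s + t) (x * y) := by
  by_cases hx0 : x = 0
  · left; rw [hx0, zero_mul]
  by_cases hy0 : y = 0
  · left; rw [hy0, mul_zero]
  right
  have h1 := hx.resolve_left hx0
  have h2 := hy.resolve_left hy0
  rw [v.ord_mul' hx0 hy0]
  linarith

theorem R2.add {t : ℤ} {x y : K} (hx : R2 v t x) (hy : R2 v t y) : R2 v t (x + y) := by
  by_cases h : x + y = 0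
  · exact Or.inl h
  right
  by_cases hx0 : x = 0
  · rw [hx0, zero_add] at h ⊢
    exact hy.resolve_left h
  by_cases hy0 : y = 0
  · rw [hy0, add_zero]
    exact hx.resolve_left hx0
  have h1 := hx.resolve_left hx0
  have h2 := hy.resolve_left hy0
  have h3 := v.ord_add x y hx0 hy0 h
  rcases min_choice (v.ord x) (v.ord y) with h4 | h4 <;> rw [h4] at h3 <;> linarith

theorem R2.pow {t : ℤ} {x : K} (h : R2 v t x) (n : ℕ) : R2 v (n * t) (x ^ n) := by
  induction n with
  | zero =>
    right
    simp [v.ord_one]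
  | succ n ih =>
    rw [pow_succ]
    refine (ih.mul h).mono ?_
    push_cast
    linarith

theorem R2.prod {ι : Type} (s : Finset ι) (f : ι → K) (t : ℤ) (h : ∀ i ∈ s, R2 v t (f i)) :
    R2 v (s.card * t) (∏ i ∈ s, f i) := by
  classical
  induction s using Finset.induction_on with
  | empty =>
    right
    simp [v.ord_one]
  | insert a s ha ih =>
    rw [Finset.prod_insert ha, Finset.card_insert_of_notMem ha]
    refine ((h a (Finset.mem_insert_self _ _)).mul
      (ih fun i hi => h i (Finset.mem_insert_of_mem hi))).mono ?_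
    push_cast
    linarith

theorem R2.sum {ι : Type} (s : Finset ι) (f : ι → K) (t : ℤ) (h : ∀ i ∈ s, R2 v t (f i)) :
    R2 v t (∑ i ∈ s, f i) := by
  classical
  induction s using Finset.induction_on with
  | empty => exact Or.inl (by simp)
  | insert a s ha ih =>
    rw [Finset.sum_insert ha]
    exact (h a (Finset.mem_insert_self _ _)).add
      (ih fun i hi => h i (Finset.mem_insert_of_mem hi))

/-- values of forms -/
theorem R2.form {τ : Type} {t : ℤ} (f : τ → K) (hf : ∀ s, R2 v t (f s)) (H : MvPolynomial τ k)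
    {M : ℕ} (hH : H.IsHomogeneous M) : R2 v (M * t) (aeval f H) := by
  rw [← support_sum_monomial_coeff H, map_sum]
  apply R2.sum
  intro m hm
  rw [aeval_monomial]
  have h1 : R2 v 0 (algebraMap k K (coeff m H)) := (R2.of_ge (ge_const v _)).mono (by simp)
  have h2 : R2 v (M * t) (m.prod fun i n => f i ^ n) := by
    rw [hH.degree_eq_sum_deg_support hm, Finsupp.prod]
    have h3 : ∀ s : Finset τ, R2 v ((∑ i ∈ s, m i : ℕ) * t) (∏ i ∈ s, f i ^ m i) := by
      intro s
      classical
      induction s using Finset.induction_on with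
      | empty =>
        right
        simp [v.ord_one]
      | insert a s ha ih =>
        rw [Finset.prod_insert ha, Finset.sum_insert ha]
        refine (((hf a).pow (m a)).mul ih).mono ?_
        push_cast
        linarith
    exact h3 m.support
  exact (h1.mul h2).mono (by linarith)

end

theorem pf_CUR (hLOC : Pool.Agent.H30.AV.T_LOC) (hPFM : T_PFM) (hDFI : T_DFI) (hPFI : T_PFI) :
    T_CUR := by
  intro k K _ _ _ _ _ _ htr n q r N w c e a l μ S y x D G g h hD hS hx hμ hxm hI hG hg hh hew
    hrel hne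
  classical
  set Θ := aeval (lift y D) (G * ∏ i, g i) with hΘ
  set ℓ : Fin q → K := fun i => ell (a i) (xx y) with hℓ
  set E : DV k K → ℤ := fun v => (poleOrder v y : ℤ) with hE
  set kp : DV k K → ℤ := fun v => kap D S y v with hkp
  set lam : Fin q → DV k K → ℤ := fun i v => v.ord (ℓ i) + E v with hlam
  have hL := fun (i : Fin q) (v : DV k K) => hLOC k K htr n (μ i) (a i) l S y (x i) D hD hS
    (hx i) (hμ i) (hxm i) v
  have hlift : ∀ v s, R2 v (2 * kp v) (lift y D s) := by
    intro v s
    have h1 := (hLOC k K htr n 2 (Fin.cons 1 0) l S y 1 D hD hS one_ne_zero le_rfl (by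
      rw [one_pow, ell, Fin.sum_univ_succ]
      simp [xx]) v).2.2.1 s.1 s.2
    exact R2.of_ge h1
  have hlam0 : ∀ i v, 0 ≤ lam i v := fun i v => (hL i v).1
  -- the local inequality for one hyperplane
  have hbase : ∀ v, R2 v (2 * (N + q * c) * kp v) Θ := by
    intro v
    rw [hΘ, map_mul, map_prod]
    have h1 := R2.form (lift y D) (hlift v) G hG
    have h2 := R2.prod Finset.univ (fun i => aeval (lift y D) (g i)) _
      fun i _ => R2.form (lift y D) (hlift v) (g i) (hg i)
    refine (h1.mul h2).mono ?_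
    rw [Finset.card_univ, Fintype.card_fin]
    linarith
  have hone : ∀ i v, R2 v (2 * (N + q * c) * kp v + w * lam i v) Θ := by
    intro i v
    have hT1 := (hL i v).2.2.2.1
    have hT2 : R2 v (2 * kp v + lam i v) (D (ℓ i)) := (hL i v).2.2.2.2
    have hT1' : R2 v (2 * kp v + lam i v)
        (ell (a i) (xx y) * ∑ s, algebraMap k K (l s) * D (y s)) := by
      refine (R2.of_ge hT1).mono ?_
      have := hlam0 i v
      simp only [hlam, hkp, hE, hℓ] at this ⊢
      linarith
    have h1 : R2 v (w * (2 * kp v + lam i v) + e * (2 * kp v)) (aeval (lift y D) (g i * G)) := by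
      rw [hrel]
      apply R2.sum
      intro j hj
      have hjw : j ≤ w := by
        have := Finset.mem_range.1 hj
        omega
      have h2 := ((hT1'.pow j).mul (hT2.pow (w - j))).mul
        (R2.form (lift y D) (hlift v) (h i j) (hh i j))
      refine h2.mono (le_of_eq ?_)
      have h3 : ((w - j : ℕ) : ℤ) = w - j := by
        push_cast [hjw]
        ring
      rw [h3]
      ring
    have h2 := R2.prod (Finset.univ.erase i) (fun i => aeval (lift y D) (g i)) _
      fun i _ => R2.form (lift y D) (hlift v) (g i) (hg i)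
    have h3 : Θ = aeval (lift y D) (g i * G) *
        ∏ i ∈ Finset.univ.erase i, aeval (lift y D) (g i) := by
      rw [hΘ, map_mul, map_mul, map_prod, ← Finset.mul_prod_erase Finset.univ _
        (Finset.mem_univ i)]
      ring
    rw [h3]
    refine (h1.mul h2).mono (le_of_eq ?_)
    rw [Finset.card_erase_of_mem (Finset.mem_univ i), Finset.card_univ, Fintype.card_fin]
    have hq : 1 ≤ q := by
      have := i.2
      omega
    have h4 : ((q - 1 : ℕ) : ℤ) = q - 1 := by
      push_cast [hq]
      ring
    have h5 : (e : ℤ) + w = N + c := by exact_mod_cast hew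
    rw [h4]
    have h6 : (e : ℤ) = N + c - w := by linarith
    rw [h6]
    ring
  -- the local inequality
  have hloc : ∀ v, 2 * r * (N + q * c) * kp v + w * ∑ i, lam i v ≤ 2 * r * v.ord Θ := by
    intro v
    let I : Finset (Fin q) := Finset.univ.filter fun i => 0 < lam i v
    have hIr : I.card ≤ r := hI v I fun i hi => (Finset.mem_filter.1 hi).2
    have h1 : ∑ i, lam i v = ∑ i ∈ I, lam i v := by
      rw [Finset.sum_filter]
      refine Finset.sum_congr rfl fun i _ => ?_
      split_ifs with h2
      · rfl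
      · exact le_antisymm (not_lt.1 h2) (hlam0 i v)
    have h2 : 2 * (N + q * c) * kp v ≤ 2 * v.ord Θ := (hbase v).resolve_left hne
    have h3 : ∑ i ∈ I, w * lam i v ≤ ∑ i ∈ I, (2 * v.ord Θ - 2 * (N + q * c) * kp v) :=
      Finset.sum_le_sum fun i _ => by
        have := (hone i v).resolve_left hne
        linarith
    rw [Finset.sum_const, nsmul_eq_mul] at h3
    have h4 : (I.card : ℤ) * (2 * v.ord Θ - 2 * (N + q * c) * kp v) ≤
        r * (2 * v.ord Θ - 2 * (N + q * c) * kp v) := by
      apply mul_le_mul_of_nonneg_right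
      · exact_mod_cast hIr
      · linarith
    rw [h1, Finset.mul_sum]
    linarith
  -- summation
  have hf1 := (hPFM k K htr Θ).1
  have hf2 := hDFI k K htr D hD
  have hf3 := hPFI k K htr (Fin n) y
  have hf4 : (⋃ i, {v : DV k K | v.ord (ℓ i) ≠ 0}).Finite :=
    Set.finite_iUnion fun i => (hPFM k K htr (ℓ i)).1
  obtain ⟨T, hST, hT⟩ : ∃ T : Finset (DV k K), S ⊆ T ∧ ∀ v, v ∉ T → v.ord Θ = 0 ∧
      ordD v D = 0 ∧ poleOrder v y = 0 ∧ ∀ i, v.ord (ℓ i) = 0 := by
    refine ⟨S ∪ (hf1.toFinset ∪ hf2.toFinset ∪ hf3.toFinset ∪ hf4.toFinset),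
      Finset.subset_union_left, fun v hv => ?_⟩
    simp only [Finset.mem_union, Set.Finite.mem_toFinset, Set.mem_ofPred_eq, not_or, not_not,
      Set.mem_iUnion, not_exists] at hv
    exact ⟨hv.2.1.1.1, hv.2.1.1.2, hv.2.1.2, hv.2.2⟩
  have s1 : ∑ v ∈ T, v.ord Θ = 0 := by
    rw [← (hPFM k K htr Θ).2, finsum_eq_sum_of_support_subset]
    intro v hv
    by_contra hcon
    exact hv (hT v hcon).1
  have s2 : ∑ v ∈ T, ordD v D = -canDeg D := by
    unfold canDeg
    rw [neg_neg, finsum_eq_sum_of_support_subset]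
    intro v hv
    by_contra hcon
    exact hv (hT v hcon).2.1
  have s3 : ∑ v ∈ T, E v = deg k y := by
    rw [cast_deg htr, finsum_eq_sum_of_support_subset]
    intro v hv
    by_contra hcon
    exact hv (by
      simp only
      exact_mod_cast (hT v hcon).2.2.1)
  have s4 : ∀ i, ∑ v ∈ T, v.ord (ℓ i) = 0 := by
    intro i
    rw [← (hPFM k K htr (ℓ i)).2, finsum_eq_sum_of_support_subset]
    intro v hv
    by_contra hcon
    exact hv ((hT v hcon).2.2.2 i)
  have s5 : ∑ v ∈ T, ∑ i, lam i v = q * deg k y := by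
    rw [Finset.sum_comm]
    have : ∀ i, ∑ v ∈ T, lam i v = deg k y := fun i => by
      simp only [hlam]
      rw [Finset.sum_add_distrib, s4, s3, zero_add]
    rw [Finset.sum_congr rfl fun i _ => this i, Finset.sum_const, Finset.card_univ,
      Fintype.card_fin, nsmul_eq_mul]
  have s6 : ∑ v ∈ T, kp v = -canDeg D - S.card - 2 * deg k y := by
    simp only [hkp, kap]
    rw [Finset.sum_sub_distrib, s2, ← Finset.sum_filter]
    have h1 : T.filter (fun v => v ∈ S) = S := by
      ext v
      simp only [Finset.mem_filter]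
      exact ⟨fun h => h.2, fun h => ⟨hST h, h⟩⟩
    rw [h1, Finset.sum_add_distrib, ← Finset.mul_sum]
    have h2 : ∑ v ∈ S, (poleOrder v y : ℤ) = deg k y := by
      rw [← s3]
      apply Finset.sum_subset hST
      intro v _ hv
      simp only [Nat.cast_eq_zero]
      unfold poleOrder
      rw [← Nat.le_zero]
      refine Finset.sup_le fun i _ => ?_
      have := hS v hv i
      omega
    rw [h2]
    simp
    ring
  have hfin := Finset.sum_le_sum fun (v : DV k K) (_ : v ∈ T) => hloc v
  rw [Finset.sum_add_distrib, ← Finset.mul_sum, ← Finset.mul_sum, ← Finset.mul_sum, s1, s5, s6]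
    at hfin
  linarith

end Pool.Agent.H64.AV
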