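import Pool.Agent.H30.AV.Targets3

/-!
# MP_70ba79_ag: module LOC of the board `avr_modules`
-/

set_option autoImplicit false

namespace Pool.Agent.H64.AV

open MvPolynomial SC Pool.Agent.H27.LV Pool.Agent.H30.AV

section

variable {k K : Type} [Field k] [Field K] [Algebra k K] {n : ℕ}

theorem xx_ge (v : DV k K) (y : Fin n → K) (s : Fin (n + 1)) :
    ge v (-(poleOrder v y : ℤ)) (xx y s) := by
  refine Fin.cases ?_ (fun i => ?_) s
  · exact (ge_one v).mono (by simp)
  · right
    have h1 : (-(v.ord (y i))).toNat ≤ poleOrder v y :=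
      Finset.le_sup (f := fun i => (-(v.ord (y i))).toNat) (Finset.mem_univ i)
    change _ ≤ v.ord (y i)
    omega

theorem ell_ge (v : DV k K) (a : Fin (n + 1) → k) (y : Fin n → K) :
    ge v (-(poleOrder v y : ℤ)) (ell a (xx y)) := by
  apply ge_sum
  intro j _
  have h := (ge_const v (a j)).mul (xx_ge v y j)
  rwa [zero_add] at h

theorem pole_zero (v : DV k K) (y : Fin n → K) (h : ∀ j, 0 ≤ v.ord (y j)) :
    poleOrder v y = 0 := by
  unfold poleOrder
  rw [← Nat.le_zero]
  refine Finset.sup_le fun i _ => ?_
  have := h i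
  omega

end

theorem pf_LOC (hDOR : T_DOR) : Pool.Agent.H30.AV.T_LOC := by
  intro k K _ _ _ _ _ _ htr n m a l S y x D hD hS hx hm hxm v
  obtain ⟨-, ⟨hd1, hd2⟩, -⟩ := hDOR k K htr D hD v
  have hell : ell a (xx y) ≠ 0 := by
    rw [← hxm]
    exact pow_ne_zero _ hx
  have hE : v ∉ S → poleOrder v y = 0 := fun hv => pole_zero v y (hS v hv)
  have hlam : 0 ≤ v.ord (ell a (xx y)) + poleOrder v y := by
    have := (ell_ge v a y).resolve_left hell
    linarith
  have hkap1 : v ∉ S → kap D S y v = ordD v D := fun hv => by
    unfold kap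
    rw [if_neg hv, sub_zero]
  have hkap2 : v ∈ S → kap D S y v = ordD v D - (2 * poleOrder v y + 1) := fun hv => by
    unfold kap
    rw [if_pos hv]
  have hDy : ∀ j, ge v (kap D S y v + poleOrder v y) (D (y j)) := by
    intro j
    by_cases hv : v ∈ S
    · rw [hkap2 hv]
      by_cases h0 : y j = 0
      · left
        rw [h0, map_zero]
      · refine (hd2 _ h0).mono ?_
        have h1 : (-(v.ord (y j))).toNat ≤ poleOrder v y :=
          Finset.le_sup (f := fun i => (-(v.ord (y i))).toNat) (Finset.mem_univ j)
        omega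
    · rw [hkap1 hv, hE hv]
      simpa using hd1 _ (hS v hv j)
  refine ⟨hlam, hE, fun s j => ?_, ?_, ?_⟩
  · refine ((xx_ge v y s).mul (hDy j)).mono ?_
    linarith
  · have h1 : ge v (kap D S y v + poleOrder v y) (∑ j, algebraMap k K (l j) * D (y j)) := by
      apply ge_sum
      intro j _
      have h := (ge_const v (l j)).mul (hDy j)
      rwa [zero_add] at h
    refine ((ge_of_ord v (x := ell a (xx y))).mul h1).mono ?_
    linarith
  · by_cases h0 : D (ell a (xx y)) = 0
    · exact Or.inl h0
    right
    have h2 := (hd2 _ hell).resolve_left h0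
    by_cases hv : v ∈ S
    · rw [hkap2 hv]
      have h3 : (0 : ℤ) ≤ poleOrder v y := by positivity
      linarith
    · rw [hkap1 hv]
      have hE0 := hE hv
      rw [hE0] at hlam ⊢
      have hxo : v.ord (ell a (xx y)) = m * v.ord x := by
        rw [← hxm, v.ord_pow]
      rcases eq_or_lt_of_le hlam with h4 | h4
      · have h5 : v.ord (ell a (xx y)) = 0 := by
          rw [Nat.cast_zero, add_zero] at h4
          exact h4.symm
        have h6 := (hd1 _ h5.ge).resolve_left h0
        rw [h5]
        push_cast
        linarith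
      · rw [Nat.cast_zero, add_zero] at h4 ⊢
        have hx1 : 1 ≤ v.ord x := by
          by_contra hcon
          push Not at hcon
          have : (m : ℤ) * v.ord x ≤ 0 :=
            mul_nonpos_of_nonneg_of_nonpos (by positivity) (by omega)
          omega
        have hm' : (2 : ℤ) ≤ m := by exact_mod_cast hm
        have h7 : (2 : ℤ) ≤ v.ord (ell a (xx y)) := by
          rw [hxo]
          nlinarith
        linarith

end Pool.Agent.H64.AV
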