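import Pool.Agent.H30.AV.Targets3

/-!
# MP_70ba79_ag: module GPV of the board `avr_modules`
-/

set_option autoImplicit false

namespace Pool.Agent.H64.AV

open MvPolynomial SC Pool.Agent.H27.LV Pool.Agent.H30.AV

section

variable {k K : Type} [Field k] [Field K] [Algebra k K]

theorem aeval_hom {τ : Type} (f : τ → K) (c : K) (H : MvPolynomial τ k) {M : ℕ}
    (hH : H.IsHomogeneous M) : aeval (fun i => c * f i) H = c ^ M * aeval f H := by
  conv_lhs => rw [← support_sum_monomial_coeff H]
  conv_rhs => rw [← support_sum_monomial_coeff H]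
  rw [map_sum, map_sum, Finset.mul_sum]
  refine Finset.sum_congr rfl fun m hm => ?_
  rw [aeval_monomial, aeval_monomial]
  simp only [Finsupp.prod, mul_pow]
  rw [Finset.prod_mul_distrib, Finset.prod_pow_eq_pow_sum,
    ← hH.degree_eq_sum_deg_support hm]
  ring

theorem red_form (v : DV k K) {τ : Type} (z : τ → K) (p : τ → k) (h0 : ∀ i, ge v 0 (z i))
    (h1 : ∀ i, ge v 1 (z i - algebraMap k K (p i))) (H : MvPolynomial τ k) :
    ge v 1 (aeval z H - algebraMap k K (eval p H)) := by
  induction H using MvPolynomial.induction_on with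
  | C a =>
    left
    simp
  | add f g hf hg =>
    have e : aeval z (f + g) - algebraMap k K (eval p (f + g)) =
        (aeval z f - algebraMap k K (eval p f)) + (aeval z g - algebraMap k K (eval p g)) := by
      simp only [map_add]
      ring
    rw [e]
    exact hf.add hg
  | mul_X f i hf =>
    have e : aeval z (f * X i) - algebraMap k K (eval p (f * X i)) =
        (aeval z f - algebraMap k K (eval p f)) * z i +
          algebraMap k K (eval p f) * (z i - algebraMap k K (p i)) := by
      simp only [map_mul, aeval_X, eval_X]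
      ring
    rw [e]
    exact ((hf.mul (h0 i)).mono (by simp)).add (((ge_const v _).mul (h1 i)).mono (by simp))

end

theorem pf_GPV (hCON : T_CON) (hGPH : T_GPH) (hRAT : T_RAT) : T_GPV := by
  intro k _ _ _ n r q Q hQ
  choose N G hG0 hGh hGz using hCON k n r Q hQ
  obtain ⟨Δ, hΔ0, hΔ⟩ := hGPH k n r q N G hG0 hGh
  refine ⟨Δ, hΔ0, ?_⟩
  intro a ha K _ _ _ htr y hy hell v I hI
  set E := poleOrder v y with hE
  let t : K := v.unif ^ E
  have ht0 : t ≠ 0 := pow_ne_zero _ v.unif_ne_zero
  have ht : v.ord t = E := v.ord_unif_pow E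
  have htg : ge v (E : ℤ) t := Or.inr ht.ge
  have hxg : ∀ s, ge v (-(E : ℤ)) (xx y s) := by
    intro s
    refine Fin.cases ?_ (fun i => ?_) s
    · exact (ge_one v).mono (by simp)
    · right
      have h1 : (-(v.ord (y i))).toNat ≤ poleOrder v y :=
        Finset.le_sup (f := fun i => (-(v.ord (y i))).toNat) (Finset.mem_univ i)
      change _ ≤ v.ord (y i)
      omega
  have hz0 : ∀ s, ge v 0 (t * xx y s) := fun s => (htg.mul (hxg s)).mono (by simp)
  have hc : ∀ s, ∃ c : k, ge v 1 (t * xx y s - algebraMap k K c) := by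
    intro s
    apply (hRAT k K htr v).2
    rcases hz0 s with h | h
    · rw [h, v.ord_zero]
    · exact h
  choose p hp using hc
  -- one of the coordinates is a unit
  obtain ⟨j, hj0, hj⟩ : ∃ j, xx y j ≠ 0 ∧ v.ord (xx y j) = -(E : ℤ) := by
    by_cases hE0 : E = 0
    · exact ⟨0, one_ne_zero, by
        change v.ord (1 : K) = _
        rw [v.ord_one, hE0]
        simp⟩
    · have hne : (Finset.univ : Finset (Fin n)).Nonempty := by
        by_contra hcon
        rw [Finset.not_nonempty_iff_eq_empty] at hcon
        apply hE0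
        rw [hE]
        unfold poleOrder
        rw [hcon]
        rfl
      obtain ⟨i, -, hi⟩ := Finset.exists_mem_eq_sup Finset.univ hne
        (fun i => (-(v.ord (y i))).toNat)
      have h1 : E = (-(v.ord (y i))).toNat := hi
      have h2 : v.ord (y i) = -(E : ℤ) := by omega
      refine ⟨i.succ, ?_, h2⟩
      intro h0
      have h3 : y i = 0 := h0
      rw [h3, v.ord_zero] at h2
      omega
  have hpne : p ≠ 0 := by
    intro h0
    have h1 := hp j
    rw [h0, Pi.zero_apply, map_zero, sub_zero] at h1
    have h2 := h1.resolve_left (mul_ne_zero ht0 hj0)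
    rw [v.ord_mul' ht0 hj0, ht, hj] at h2
    omega
  refine hΔ a ha p hpne ?_ I ?_
  · intro s
    have h1 := red_form v (fun i => t * xx y (s i)) (fun i => p (s i)) (fun i => hz0 (s i))
      (fun i => hp (s i)) (G s)
    rw [aeval_hom _ t (G s) (hGh s), hGz s K y hy, mul_zero, zero_sub] at h1
    have h2 := h1.neg
    rw [neg_neg] at h2
    exact const_eq_zero v one_pos h2
  · intro i hi
    have h1 : ge v 1 (t * ell (a i) (xx y)) := by
      right
      rw [v.ord_mul' ht0 (hell i), ht]
      have := hI i hi
      omega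
    have h2 : ge v 1 (t * ell (a i) (xx y) - algebraMap k K (∑ j, a i j * p j)) := by
      have e : t * ell (a i) (xx y) - algebraMap k K (∑ j, a i j * p j) =
          ∑ j, algebraMap k K (a i j) * (t * xx y j - algebraMap k K (p j)) := by
        rw [ell, map_sum, Finset.mul_sum, ← Finset.sum_sub_distrib]
        refine Finset.sum_congr rfl fun j _ => ?_
        rw [map_mul]
        ring
      rw [e]
      exact ge_sum v _ _ _ fun j _ => ((ge_const v (a i j)).mul (hp j)).mono (by simp)
    have h3 := h1.sub h2
    rw [sub_sub_cancel] at h3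
    exact const_eq_zero v one_pos h3

end Pool.Agent.H64.AV
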