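import Pool.Agent.H91.AV.Targets
import Pool.Agent.H63.KX.BIP

namespace Pool.Agent.H64.AV

open Finset Pool.Agent.H91.AV
open Pool.Agent.H96.KX (psz fac jun PDz prs)

/-- BIP -/
theorem pf_BIP (hK : S_KAP) : S_BIP := by
  intro H U Z _ _ _ _ _ h r c hr hc hmom hQ N t D Mx hD hpos g hg
  obtain ⟨w, hw0, hrho, hX⟩ := hK H U Z h r c hr hc hmom hQ N t g hg
  have hQ0 : (0 : ℝ) < (Fintype.card Z : ℝ) ^ N := by
    have : 0 < Fintype.card Z := Fintype.card_pos
    positivity
  have hMx : 0 ≤ Mx := by
    obtain ⟨z⟩ := (inferInstance : Nonempty (Fin N → Z))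
    exact (abs_nonneg _).trans (hD z)
  set X : (Fin N → H) → ℝ := fun a => ∑ τ with t ≤ psz τ, w a τ with hXdef
  have hX0 : ∀ a, 0 ≤ X a := fun a => Finset.sum_nonneg fun τ _ => hw0 a τ
  refine ⟨fun a => Mx * X a, fun a => mul_nonneg hMx (hX0 a), ?_, ?_⟩
  · intro a
    have hA : (Fintype.card Z : ℝ) ^ N * bix h D g a = ∑ z, rhx h g a z * D z := by
      have : ∀ z, rhx h g a z * D z =
          ∑ x, g x * (jun (fun i => some (h (a i) (x i))) z * D z) := by
        intro z
        unfold rhx
        rw [Finset.sum_mul]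
        exact Finset.sum_congr rfl fun x _ => by ring
      simp only [this]
      rw [Finset.sum_comm]
      unfold bix
      rw [Finset.mul_sum]
      refine Finset.sum_congr rfl fun x _ => ?_
      rw [← Finset.mul_sum]
      have h2 : ∑ z, jun (fun i => some (h (a i) (x i))) z * D z =
          (Fintype.card Z : ℝ) ^ N * D (fun i => h (a i) (x i)) := by
        have h3 : ∀ z, jun (fun i => some (h (a i) (x i))) z * D z =
            if z = (fun i => h (a i) (x i)) then (Fintype.card Z : ℝ) ^ N * D z else 0 := by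
          intro z
          rw [Pool.Agent.H63.KX.bip_some (fun i => h (a i) (x i)) z]
          split_ifs <;> simp
        simp only [h3]
        rw [Finset.sum_ite_eq' univ (fun i => h (a i) (x i))
          (fun z => (Fintype.card Z : ℝ) ^ N * D z)]
        simp
      rw [h2]
      ring
    have h1 : ∑ z, rhx h g a z * D z = ∑ τ, w a τ * ∑ z, jun τ z * D z := by
      simp only [hrho, Finset.sum_mul, Finset.mul_sum]
      rw [Finset.sum_comm]
      exact Finset.sum_congr rfl fun τ _ => Finset.sum_congr rfl fun z _ => by ring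
    have hlow : ∀ τ : Fin N → Option Z,
        -(Mx * (Fintype.card Z : ℝ) ^ N) ≤ ∑ z, jun τ z * D z := by
      intro τ
      rw [← Pool.Agent.H63.KX.bip_sum τ, Finset.mul_sum, ← Finset.sum_neg_distrib]
      refine Finset.sum_le_sum fun z _ => ?_
      have h3 := (abs_le.1 (hD z)).1
      have h4 := Pool.Agent.H63.KX.bip_nonneg τ z
      nlinarith
    have h2 : ∑ τ, w a τ * ∑ z, jun τ z * D z ≥
        ∑ τ, (if t ≤ psz τ then -(Mx * (Fintype.card Z : ℝ) ^ N) * w a τ else 0) := by
      refine Finset.sum_le_sum fun τ _ => ?_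
      split_ifs with ht
      · rw [mul_comm]
        exact mul_le_mul_of_nonneg_left (hlow τ) (hw0 a τ)
      · exact mul_nonneg (hw0 a τ) (hpos τ (not_le.1 ht))
    rw [← Finset.sum_filter, ← Finset.mul_sum] at h2
    have h3 : (Fintype.card Z : ℝ) ^ N * (-(Mx * X a)) ≤
        (Fintype.card Z : ℝ) ^ N * bix h D g a := by
      rw [hA, h1]
      refine le_trans (le_of_eq ?_) h2
      simp only [hXdef]
      ring
    exact le_of_mul_le_mul_left h3 hQ0
  · have h6 : ∑ a, X a ^ (2 * r) ≤ kap H U Z r c N t * (∑ x, g x ^ 2) ^ r := hX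
    calc ∑ a, (Mx * X a) ^ (2 * r) = Mx ^ (2 * r) * ∑ a, X a ^ (2 * r) := by
          rw [Finset.mul_sum]
          exact Finset.sum_congr rfl fun a _ => mul_pow _ _ _
      _ ≤ Mx ^ (2 * r) * (kap H U Z r c N t * (∑ x, g x ^ 2) ^ r) :=
          mul_le_mul_of_nonneg_left h6 (pow_nonneg hMx _)
      _ = _ := by ring

end Pool.Agent.H64.AV
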